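import Mathlib
import Pool.Agent.UCR.DefsG
import Pool.Agent.UCR.GenSys
import Pool.Agent.UCR.Exist

/-!
# MP_8a44e4_co: point sets in the span of algebraically independent unit vectors
-/

set_option autoImplicit false

namespace Pool.Agent.Results.MP_8a44e4_co.GenericSpan

open UCR

/-- Let `K` be a field embedded in the real numbers. For unit complex numbers `z i`, algebraically independent
over `K`, the number of unit circles through three points of a finite set `P` with differences in the `K`-span
of the `z i` is at most `2304 |P| ^ (3/2)`. For countable `K` there is such a sequence `z i` for which, for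
every `n ≥ 3`, some `n`-element subset of the span has at least `n ^ (3/2) / 27` such circles. -/
theorem result (K : Type) [Field K] [Algebra K ℝ] :
    (∀ (ι : Type) (z : ι → ℂ), (∀ i, ‖z i‖ = 1) → AlgebraicIndependent K z → ∀ P : Finset ℂ,
      (cosetCentres (Submodule.span K (Set.range z) : Set ℂ) P).Finite ∧
      ((cosetCentres (Submodule.span K (Set.range z) : Set ℂ) P).ncard : ℝ) ≤
        2304 * (P.card : ℝ) ^ (3 / 2 : ℝ)) ∧
    (Countable K → ∃ z : ℕ → ℂ, (∀ i, ‖z i‖ = 1) ∧ AlgebraicIndependent K z ∧
      ∀ n : ℕ, 3 ≤ n → ∃ P : Finset ℂ, (P : Set ℂ) ⊆ (Submodule.span K (Set.range z) : Set ℂ) ∧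
        P.card = n ∧ (n : ℝ) ^ (3 / 2 : ℝ) / 27 ≤
          ((cosetCentres (Submodule.span K (Set.range z) : Set ℂ) P).ncard : ℝ)) := by
  classical
  refine ⟨fun ι z hn hz P => coset_le hz hn P, fun _ => ?_⟩
  obtain ⟨z, hn, hz⟩ := exists_family K
  exact ⟨z, hn, hz, fun n h3 => coset_ge hz hn n h3⟩

end Pool.Agent.Results.MP_8a44e4_co.GenericSpan
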