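import Mathlib
import Pool.Agent.UCR.Defs
import Pool.Agent.UCR.Lower

/-!
# MP_8a44e4_co: unit circles with three radii whose directions are roots of unity times elements of a set
of unit complex numbers which is linearly independent over the field generated by all roots of unity
-/

set_option autoImplicit false

namespace Pool.Agent.Results.MP_8a44e4_co.RationalRadii

open UCR

/-- Let `B` be a nonempty set of unit complex numbers, linearly independent over the field generated by all
roots of unity. The number of unit circles which have at least three points `p` of an `n`-set `P` with radius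
vector `p - q` a root of unity times an element of `B` is at most `144 * 210 ^ 4 * n ^ (3/2)`, and for every
`n ≥ 3` some `n`-set has at least `n ^ (3/2) / 27` such unit circles. -/
theorem result (B : Set ℂ) (hne : B.Nonempty) (hB : ∀ b ∈ B, ‖b‖ = 1)
    (hlin : LinearIndependent Qab (fun b : B => (b : ℂ))) :
    (∀ P : Finset ℂ, (centres (dirs B) P).Finite ∧
      ((centres (dirs B) P).ncard : ℝ) ≤ 144 * 210 ^ 4 * (P.card : ℝ) ^ (3 / 2 : ℝ)) ∧
    (∀ n : ℕ, 3 ≤ n → ∃ P : Finset ℂ, P.card = n ∧
      (n : ℝ) ^ (3 / 2 : ℝ) / 27 ≤ ((centres (dirs B) P).ncard : ℝ)) := by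
  have h0 : ∀ b ∈ B, b ≠ 0 := by
    intro b hb h
    have := hB b hb
    rw [h, norm_zero] at this
    exact zero_ne_one this
  have hsys := dirs_sys B h0 hlin
  have hup : ∀ P : Finset ℂ, (centres (dirs B) P).Finite ∧
      ((centres (dirs B) P).ncard : ℝ) ≤ 144 * 210 ^ 4 * (P.card : ℝ) ^ (3 / 2 : ℝ) := by
    intro P
    have := centres_le hsys P
    refine ⟨this.1, ?_⟩
    have h2 := this.2
    push_cast at h2
    exact h2
  refine ⟨hup, fun n hn => ?_⟩
  obtain ⟨b, hb⟩ := hne
  obtain ⟨P, _, hP1, hP2⟩ := lower (D := dirs B) (V := Set.univ) Set.infinite_univ (by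
    intro m
    obtain ⟨v, hv1, hv2⟩ := exists_roots m b (h0 b hb)
    refine ⟨v, hv1, fun i => ?_, fun i j _ => Set.mem_univ _⟩
    obtain ⟨N, hN, h⟩ := hv2 i
    exact hsys.neg_mem _ ⟨b, hb, N, hN, h⟩) (fun P _ => (hup P).1) n hn
  exact ⟨P, hP1, hP2⟩

end Pool.Agent.Results.MP_8a44e4_co.RationalRadii
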