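import Mathlib
import Pool.Agent.UCR.Defs
import Pool.Agent.UCR.DefsS
import Pool.Agent.UCR.Short

/-!
# MP_8a44e4_co: more than about `n ^ (3/2)` unit circles force many short linear relations between radii
-/

set_option autoImplicit false

namespace Pool.Agent.Results.MP_8a44e4_co.ShortRelations

open UCR

/-- For every finite set `P` of points of the plane and every `b`: the number of unit circles through at
least three points of `P` is at most `144 b ^ 4 |P| ^ (3/2)` plus `|P|` times the number of radius vectors which
are linked, through minimal vanishing sums of at most eight radius vectors, to more than `b` radius vectors. -/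
theorem result (P : Finset ℂ) (b : ℕ) :
    (unitCentres P).Finite ∧ (radii P).Finite ∧
    ((unitCentres P).ncard : ℝ) ≤ 144 * (b : ℝ) ^ 4 * (P.card : ℝ) ^ (3 / 2 : ℝ) +
      ((busyRadii P b).ncard : ℝ) * P.card :=
  ⟨unitCentres_finite P, radii_finite P, short P b⟩

end Pool.Agent.Results.MP_8a44e4_co.ShortRelations
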